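import Pool.Agent.H58.FN.Targets

/-!
# Board fnc_modules, row FOV: the overlap
-/

set_option autoImplicit false

open Topology

namespace Pool.Agent.H89.FN

open Pool.Agent.H59 Pool.Agent.H48.FR Pool.Agent.H58.FL Pool.Agent.H30.FA Pool.Agent.H58.FM
open Pool.Agent.H58.FN

theorem pf_FOV (hPBS : T_PBS) (hPRM : Pool.Agent.H58.FN.T_PRM) (hMLB : T_MLB) (hCLQ : T_CLQ)
    (hLB4 : T_LB4) (hLB6 : T_LB6) : T_FOV := by
  intro E J X _ _ _ κ δ x t σ S hne hK2 hn12 hp4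
  have _ := hCLQ
  obtain ⟨c4, H4, hH4, hl4, hS4⟩ := hLB4 E J X κ δ x t σ S hne hK2 hn12
  obtain ⟨c6, H6, hH6, hl6, hS6⟩ := hLB6 E J X κ δ x t σ S hne hK2.1 hp4
  obtain ⟨hal, -, -, hno5, -⟩ := hPBS
  have hδ := σ.d_pos
  have hsub : ∀ j, j ∈ H4 → j ∈ H6 := by
    intro j hj
    obtain ⟨f, hf, h⟩ := (hH4 j).1 hj
    exact (hH6 j).2 ⟨f, hf, by linarith⟩
  have h20 : ∀ f ∈ S, 20 * δ < t f (σ.p f 5) := by
    intro f hf
    obtain ⟨h1, h2, -⟩ := σ.q_max f (hK2.2 f hf)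
    obtain ⟨hq4, -, -, -⟩ := hS4 f hf
    obtain ⟨-, -, -, hc5, hmax⟩ := hS6 f hf
    have hex : ∃ i, c6 (σ.q f i) = 5 := by
      by_contra hno
      have h0 := hno5 (c6 (σ.q f 0)) (c6 (σ.q f 1)) (c6 (σ.q f 2)) (c6 (σ.q f 3))
        (fun h => hno ⟨0, h⟩) (fun h => hno ⟨1, h⟩) (fun h => hno ⟨2, h⟩) (fun h => hno ⟨3, h⟩)
      have h3 := hl6 _ (hsub _ (hq4 0)) _ (hsub _ (hq4 1)) _ (hsub _ (hq4 2)) _
        (hsub _ (hq4 3))
      rw [h1, h0] at h3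
      norm_num at h3
    obtain ⟨i, hi⟩ := hex
    have h3 := hmax 5 (σ.q f i) (hsub _ (hq4 i)) (by rw [hi, hc5])
    exact (h2 i).trans_le h3
  have h5 : ∀ f ∈ S, σ.p f 5 ∈ H4 := fun f hf =>
    (hH4 _).2 ⟨f, hf, by have := h20 f hf; linarith⟩
  refine ⟨fun f hf => by have := h20 f hf; linarith, ?_, ?_⟩
  · intro f hf g hg h hh
    have hP := hPRM E J X 4 1 x σ.q σ.hh (by norm_num) (by norm_num) f g h
    obtain ⟨qf, -, bf, -⟩ := hS4 f hf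
    obtain ⟨qg, -, bg, -⟩ := hS4 g hg
    obtain ⟨qh, -, bh, -⟩ := hS4 h hh
    have e1 : MM x (σ.q f) (σ.q g) (σ.q h) (σ.hh h) = 0 :=
      (hMLB E J x c4 H4 hl4 4 1 (σ.q h) (σ.hh h) (σ.q f) (σ.q g) qh (fun _ => h5 h hh) qf qg
        bf bg).2.2
    have e2 : MM x (σ.q f) (σ.q g) (σ.hh g) (σ.hh h) = 0 :=
      (hMLB E J x c4 H4 hl4 1 1 (σ.hh g) (σ.hh h) (σ.q f) (σ.q g) (fun _ => h5 g hg)
        (fun _ => h5 h hh) qf qg bf bg).2.2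
    have e3 : MM x (σ.q f) (σ.hh f) (σ.hh g) (σ.hh h) = 0 := by
      unfold MM
      rw [div_eq_zero_iff]
      left
      refine Finset.sum_eq_zero fun i _ => Finset.sum_eq_zero fun j _ =>
        Finset.sum_eq_zero fun k _ => Finset.sum_eq_zero fun l _ => ?_
      obtain ⟨-, -, -, c5f, -⟩ := hS6 f hf
      obtain ⟨-, -, -, c5g, -⟩ := hS6 g hg
      obtain ⟨-, -, -, c5h, -⟩ := hS6 h hh
      have h3 := hl6 _ (hsub _ (qf i)) _ (hsub _ (h5 f hf)) _ (hsub _ (h5 g hg)) _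
        (hsub _ (h5 h hh))
      rw [c5f, c5g, c5h] at h3
      have h4 := (hal (c6 (σ.q f i)) 5 5 5).2.1
      have h6 : pen (c6 (σ.q f i)) 5 5 5 = 0 := by omega
      rw [h6, Int.cast_zero] at h3
      exact h3
    rw [e1, e2, e3] at hP
    rw [hP]
    ring
  · rintro ⟨f, hf, g, hg, h, hh, k, hk, hne0⟩
    obtain ⟨-, vf, -, -⟩ := hS4 f hf
    obtain ⟨-, vg, -, -⟩ := hS4 g hg
    obtain ⟨-, vh, -, -⟩ := hS4 h hh
    obtain ⟨qk, -, bk, -⟩ := hS4 k hk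
    obtain ⟨i, hi⟩ := bk.2 (c4 (σ.p k 5))
    refine ⟨f, hf, g, hg, h, hh, k, hk, i, ?_⟩
    have e1 := hl4 _ vf _ vg _ vh _ (h5 k hk)
    have e2 := hl4 _ vf _ vg _ vh _ (qk i)
    have hi' : c4 (σ.q k i) = c4 (σ.p k 5) := hi
    rw [hi', ← e1] at e2
    rw [e2]
    exact hne0

end Pool.Agent.H89.FN
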